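import Pool.Agent.Lib.EU2.Planar

set_option autoImplicit false

namespace Pool.Agent.Results.MP_fea353_an.BelowTwoThirds

open MeasureTheory Set Pool.Agent.Lib.MP_fea353_an

/-- For every `β < 2/3` and every time interval there is a planar weak solution of the Euler
equations on the three-dimensional torus, bounded in time with values in `H^β`, whose kinetic
energy is not constant, not even after modification on a null set of times. -/
theorem result : ∀ T β : ℝ, 0 < T → β < 2 / 3 →
    ∃ (v : ℝ → T3 → Fin 3 → ℝ) (p : ℝ → T3 → ℝ), WeakEuler T v p ∧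
      (∀ t x, v t x 2 = 0 ∧
        ∀ s : UnitAddCircle, v t (x + (Pi.single 2 s : Fin 3 → UnitAddCircle)) = v t x) ∧
      (∀ t i, MemLp (fun x => v t x i) 2 mu) ∧
      (∃ M : ℝ, ∀ t i, HsNormSq β (fun x => v t x i) ≤ ENNReal.ofReal M) ∧
      ¬ ∃ E : ℝ, ∀ᵐ t ∂(volume.restrict (Ioo 0 T)), energy (v t) = E :=
  fun T β hT hβ => Pool.Agent.Lib.EU2.main_planar T β hT hβ

end Pool.Agent.Results.MP_fea353_an.BelowTwoThirds
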