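import Pool.Agent.Lib.MP_fea353_an.Core

set_option autoImplicit false

namespace Pool.Agent.Results.MP_fea353_an.PressureCriterion

open MeasureTheory Set Pool.Agent.Lib.MP_fea353_an
open scoped ENNReal

/-- A weak Euler solution in `L^∞_t H^β`, `1/2 ≤ β < 1`, whose pressure lies in
`L^1_t H^(1-β)` conserves kinetic energy. -/
theorem result : ∀ (T β : ℝ) (v : ℝ → T3 → Fin 3 → ℝ) (p : ℝ → T3 → ℝ),
    1 / 2 ≤ β → β < 1 → WeakEuler T v p →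
    (∃ C : ℝ≥0∞, C < ⊤ ∧ ∀ᵐ t ∂(volume.restrict (Ioo 0 T)), ∀ i,
      HsNormSq β (fun x => v t x i) ≤ C) →
    ∫⁻ t in Ioo 0 T, HsNormSq (1 - β) (p t) ^ (1 / 2 : ℝ) < ⊤ →
    ∃ E : ℝ, ∀ᵐ t ∂(volume.restrict (Ioo 0 T)), energy (v t) = E :=
  fun _ _ _ _ hβ hβ1 h hv hp => pressure_criterion hβ hβ1 h hv hp

end Pool.Agent.Results.MP_fea353_an.PressureCriterion
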