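import Pool.Agent.Lib.MP_fea353_an.Two

set_option autoImplicit false

namespace Pool.Agent.Results.MP_fea353_an.TwoComponent

open MeasureTheory Set Pool.Agent.Lib.MP_fea353_an
open scoped ENNReal

/-- A weak Euler solution with two velocity components in `L^∞_t H^a` and the third one in
`L^∞_t H^b` conserves kinetic energy when `1/2 ≤ b ≤ a ≤ 1` and
`2 (1 - a) < (3 a + b - 3) (1 - a + b)`. -/
theorem result : ∀ (T a b : ℝ) (v : ℝ → T3 → Fin 3 → ℝ) (p : ℝ → T3 → ℝ),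
    1 / 2 ≤ b → b ≤ a → a ≤ 1 → 2 * (1 - a) < (3 * a + b - 3) * (1 - a + b) → WeakEuler T v p →
    (∃ C : ℝ≥0∞, C < ⊤ ∧ ∀ᵐ t ∂(volume.restrict (Ioo 0 T)),
      HsNormSq a (fun x => v t x 0) ≤ C ∧ HsNormSq a (fun x => v t x 1) ≤ C ∧
        HsNormSq b (fun x => v t x 2) ≤ C) →
    ∃ E : ℝ, ∀ᵐ t ∂(volume.restrict (Ioo 0 T)), energy (v t) = E :=
  fun _ _ _ _ _ hb hba ha hab h hv => two_component hb hba ha hab h hv

end Pool.Agent.Results.MP_fea353_an.TwoComponent
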